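import Mathlib
import Pool.Agent.H734R3.AF.BLV

/-!
The Bombieri-Lang-Vojta equivalence between finiteness of integral points and degeneracy of entire
curves, for complements of hypersurfaces in affine multi-cyclic covers of affine space of
nonpositive log canonical degree, and all closed subschemes `V'`.
-/

set_option autoImplicit false

namespace Pool.Agent.Results.MP_e97a4d_nt.AffineMultiCyclicCovers

open MvPolynomial Pool.Agent.H734R3.AF Pool.Agent.H159R3.Exp
open scoped NumberField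

theorem result {K : Type} [Field K] [NumberField K] (σ : K →+* ℂ) {n r : ℕ} (hn : 1 ≤ n)
    (m : Fin r → ℕ) (hm : ∀ i, 2 ≤ m i) (f : Fin r → MvPolynomial (Fin n) (𝓞 K))
    (g : MvPolynomial (Fin n) (𝓞 K)) (hf : ∀ i, f i ≠ 0)
    (e : Fin r → ℕ) (hdeg : ∀ i, (f i).totalDegree ≤ m i * e i)
    (he : ∑ i, (m i - 1) * e i + g.totalDegree ≤ n)
    (heq : ∑ i, (m i - 1) * e i = n → ∃ i, e i ≠ 0 ∧ 2 ∣ m i)
    {ι' : Type} (G : ι' → MvPolynomial (Fin (n + r + 1)) (𝓞 K)) :
    (FinitelyManyIntegral (eqs m f g) G ↔ EntireCurvesIn σ (eqs m f g) G) ∧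
    (EntireCurvesIn σ (eqs m f g) G ↔ ∀ P : Fin (n + r + 1) → ℂ,
      (∀ i, eval₂ (σ.comp (algebraMap (𝓞 K) K)) P (eqs m f g i) = 0) →
        ∀ j, eval₂ (σ.comp (algebraMap (𝓞 K) K)) P (G j) = 0) :=
  blv σ hn m hm f g hf e hdeg he heq G

end Pool.Agent.Results.MP_e97a4d_nt.AffineMultiCyclicCovers
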