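import Mathlib
import Pool.Agent.H159R3.Exp.BLV

/-!
The implication from finiteness of integral points to degeneracy of entire curves, for all affine
varieties and all entire curves given by polynomials in the variable and in exponentials of entire
functions.
-/

namespace Pool.Agent.Results.MP_e97a4d_nt.ExponentialCurves

open MvPolynomial Pool.Agent.H159R3.Exp
open scoped NumberField

theorem result {K : Type} [Field K] [NumberField K] {ι ι' : Type} {n : ℕ}
    (F : ι → MvPolynomial (Fin n) (𝓞 K)) (G : ι' → MvPolynomial (Fin n) (𝓞 K))
    (hfin : FinitelyManyIntegral F G) (σ : K →+* ℂ) : ExpCurvesIn σ F G :=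
  main F G hfin σ

end Pool.Agent.Results.MP_e97a4d_nt.ExponentialCurves
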