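import Mathlib
import Pool.Agent.H159R3.BLV.Main

/-!
The implication from finiteness of integral points to degeneracy of entire curves for affine
varieties given by few monomials that are high powers (up to units).
-/

namespace Pool.Agent.Results.MP_e97a4d_nt.PowerSparseSystems

open MvPolynomial Pool.Agent.H159R3.BLV
open scoped NumberField

theorem result (K : Type) [Field K] [NumberField K] {ι ι' : Type} {n : ℕ} (U : Set (Fin n))
    (F : ι → MvPolynomial (Fin n) (𝓞 K)) (G : ι' → MvPolynomial (Fin n) (𝓞 K))
    (hC : ∀ i, PowerSparse U (F i)) (hfin : FinitelyManyIntegral U F G) (σ : K →+* ℂ) :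
    EntireCurvesIn σ U F G :=
  main U F G hC hfin σ

end Pool.Agent.Results.MP_e97a4d_nt.PowerSparseSystems
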