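import Mathlib
import Pool.Agent.H159R3.War.AffineMain

/-!
The implication from finiteness of integral points to degeneracy of entire curves for affine
varieties given by sums of few high powers of affine-linear polynomials.
-/

namespace Pool.Agent.Results.MP_e97a4d_nt.WaringSystems

open MvPolynomial Pool.Agent.H159R3.WarAff
open scoped NumberField

theorem result {K : Type} [Field K] [NumberField K] {ι ι' : Type} {n m : ℕ}
    (F : ι → MvPolynomial (Fin n) (𝓞 K)) (Q : Fin m → MvPolynomial (Fin n) (𝓞 K))
    (G : ι' → MvPolynomial (Fin n) (𝓞 K)) (σ : K →+* ℂ)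
    (hF : ∀ i, Waring (map (σ.comp (algebraMap (𝓞 K) K)) (F i)))
    (hQ : ∀ j, WaringLog (map (σ.comp (algebraMap (𝓞 K) K)) (Q j)))
    (hfin : FinitelyManyIntegral F Q G) : EntireCurvesIn σ F Q G :=
  main F Q G σ hF hQ hfin

end Pool.Agent.Results.MP_e97a4d_nt.WaringSystems
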